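import Pool.Agent.H49.VK.Exk
import Pool.Agent.H24.AB.LSK

/-!
# [H49 HV BAD] Few `q` in `(R, 2R]` with `H/q` close to an integer, for every `H` between `R²` and `R^kap`

If `|x - k| ≤ 1/(8J)` then `|∑_{j < J} e(j x)|² ≥ J²/2`, so (large values, dual form) at most `2R/J + 2M` of the `q` are bad, where
`M` bounds the sums `∑_q e(j H/q)`, `1 ≤ j < J`; by `expsumK` `M ≤ K (1 + log R) R^(1 - c/(kap+1)²)`.
-/

set_option autoImplicit false

namespace Pool.Agent.H49.HV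

open Finset Pool.Agent.H24.AB

private theorem near_int (J : ℕ) (x : ℝ) (k : ℤ) (hJ : 1 ≤ J) (hx : |x - k| ≤ 1 / (8 * J)) :
    (J : ℝ) ^ 2 / 2 ≤ ‖∑ j ∈ range J, ee ((j : ℝ) * x)‖ ^ 2 := by
  have hJ0 : (0 : ℝ) < J := by exact_mod_cast hJ
  have h1 : ∀ j ∈ range J, √2 / 2 ≤ (ee ((j : ℝ) * x)).re := by
    intro j hj
    have hj' : (j : ℝ) ≤ J := by exact_mod_cast (mem_range.1 hj).le
    have e1 : ee ((j : ℝ) * x) = ee ((j : ℝ) * (x - k)) := by
      have e2 : (j : ℝ) * x = (j : ℝ) * (x - k) + ((j * k : ℤ) : ℝ) := by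
        push_cast
        ring
      rw [e2, ee_add, ee_int, mul_one]
    rw [e1]
    have e3 : (ee ((j : ℝ) * (x - k))).re = Real.cos (2 * Real.pi * ((j : ℝ) * (x - k))) := by
      unfold ee
      rw [show (2 * (Real.pi : ℂ) * (((j : ℝ) * (x - k) : ℝ) : ℂ) * Complex.I) =
        ((2 * Real.pi * ((j : ℝ) * (x - k)) : ℝ) : ℂ) * Complex.I by push_cast; ring]
      exact Complex.exp_ofReal_mul_I_re _
    rw [e3, ← Real.cos_abs, ← Real.cos_pi_div_four]
    have h2 : |2 * Real.pi * ((j : ℝ) * (x - k))| ≤ Real.pi / 4 := by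
      rw [abs_mul, abs_of_pos (by positivity : (0 : ℝ) < 2 * Real.pi), abs_mul,
        abs_of_nonneg (Nat.cast_nonneg j)]
      have h3 : (j : ℝ) * |x - k| ≤ J * (1 / (8 * J)) :=
        mul_le_mul hj' hx (abs_nonneg _) hJ0.le
      have h4 : (J : ℝ) * (1 / (8 * J)) = 1 / 8 := by field_simp
      have := Real.pi_pos
      nlinarith
    refine Real.cos_le_cos_of_nonneg_of_le_pi (abs_nonneg _) ?_ h2
    have := Real.pi_pos
    linarith
  have h2 : (J : ℝ) * (√2 / 2) ≤ (∑ j ∈ range J, ee ((j : ℝ) * x)).re := by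
    rw [Complex.re_sum]
    have := sum_le_sum h1
    rw [sum_const, card_range, nsmul_eq_mul] at this
    exact this
  have h3 := h2.trans ((le_abs_self _).trans (Complex.abs_re_le_norm _))
  have h4 : (0 : ℝ) ≤ (J : ℝ) * (√2 / 2) := by positivity
  have h5 := pow_le_pow_left₀ h4 h3 2
  have h6 : ((J : ℝ) * (√2 / 2)) ^ 2 = (J : ℝ) ^ 2 / 2 := by
    rw [mul_pow, div_pow, Real.sq_sqrt (by norm_num)]
    ring
  linarith

private theorem second_moment (S : Finset ℕ) (x : ℕ → ℝ) (J : ℕ) (M : ℝ) (hM0 : 0 ≤ M)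
    (hM : ∀ j : ℕ, 1 ≤ j → j < J → ‖∑ q ∈ S, ee ((j : ℝ) * x q)‖ ≤ M) :
    ∑ q ∈ S, ‖∑ j ∈ range J, ee ((j : ℝ) * x q)‖ ^ 2 ≤ J * S.card + (J : ℝ) ^ 2 * M := by
  have h1 : ∀ q, ((‖∑ j ∈ range J, ee ((j : ℝ) * x q)‖ ^ 2 : ℝ) : ℂ) =
      ∑ i ∈ range J, ∑ j ∈ range J, ee (((i : ℝ) - j) * x q) := by
    intro q
    rw [Complex.ofReal_pow, ← Complex.mul_conj', map_sum, sum_mul_sum]
    refine sum_congr rfl fun i _ => sum_congr rfl fun j _ => ?_
    rw [ee_conj, ← ee_add]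
    congr 1
    ring
  have h2 : ((∑ q ∈ S, ‖∑ j ∈ range J, ee ((j : ℝ) * x q)‖ ^ 2 : ℝ) : ℂ) =
      ∑ i ∈ range J, ∑ j ∈ range J, ∑ q ∈ S, ee (((i : ℝ) - j) * x q) := by
    rw [Complex.ofReal_sum, sum_congr rfl fun q _ => h1 q, sum_comm]
    exact sum_congr rfl fun i _ => sum_comm
  have h3 : ∀ i ∈ range J, ∀ j ∈ range J, ‖∑ q ∈ S, ee (((i : ℝ) - j) * x q)‖ ≤
      (if i = j then (S.card : ℝ) else 0) + M := by
    intro i hi j hj
    rw [mem_range] at hi hj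
    rcases lt_trichotomy i j with h | h | h
    · rw [if_neg h.ne, zero_add]
      have e1 : ∑ q ∈ S, ee (((i : ℝ) - j) * x q) =
          (starRingEnd ℂ) (∑ q ∈ S, ee (((j - i : ℕ) : ℝ) * x q)) := by
        rw [map_sum]
        refine sum_congr rfl fun q _ => ?_
        rw [ee_conj, Nat.cast_sub h.le]
        congr 1
        ring
      rw [e1, Complex.norm_conj]
      exact hM _ (by omega) (by omega)
    · rw [if_pos h, h]
      have e1 : ∑ q ∈ S, ee (((j : ℝ) - j) * x q) = (S.card : ℂ) := by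
        simp only [sub_self, zero_mul, ee_zero, sum_const, nsmul_eq_mul, mul_one]
      rw [e1, Complex.norm_natCast]
      linarith
    · rw [if_neg h.ne', zero_add]
      have e1 : ∑ q ∈ S, ee (((i : ℝ) - j) * x q) = ∑ q ∈ S, ee (((i - j : ℕ) : ℝ) * x q) := by
        refine sum_congr rfl fun q _ => ?_
        rw [Nat.cast_sub h.le]
      rw [e1]
      exact hM _ (by omega) (by omega)
  have h4 : (0 : ℝ) ≤ ∑ q ∈ S, ‖∑ j ∈ range J, ee ((j : ℝ) * x q)‖ ^ 2 :=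
    sum_nonneg fun q _ => by positivity
  calc ∑ q ∈ S, ‖∑ j ∈ range J, ee ((j : ℝ) * x q)‖ ^ 2
      = ‖((∑ q ∈ S, ‖∑ j ∈ range J, ee ((j : ℝ) * x q)‖ ^ 2 : ℝ) : ℂ)‖ := by
        rw [Complex.norm_real, Real.norm_of_nonneg h4]
    _ = ‖∑ i ∈ range J, ∑ j ∈ range J, ∑ q ∈ S, ee (((i : ℝ) - j) * x q)‖ := by rw [h2]
    _ ≤ ∑ i ∈ range J, ∑ j ∈ range J, ((if i = j then (S.card : ℝ) else 0) + M) := by
        refine (norm_sum_le _ _).trans (sum_le_sum fun i hi => ?_)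
        exact (norm_sum_le _ _).trans (sum_le_sum fun j hj => h3 i hi j hj)
    _ = J * S.card + (J : ℝ) ^ 2 * M := by
        have e1 : ∀ i ∈ range J, ∑ j ∈ range J, ((if i = j then (S.card : ℝ) else 0) + M) =
            S.card + J * M := by
          intro i hi
          rw [sum_add_distrib, sum_ite_eq, if_pos hi, sum_const, card_range, nsmul_eq_mul]
        rw [sum_congr rfl e1, sum_const, card_range, nsmul_eq_mul]
        ring

/-- large values -/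
theorem count_near (S : Finset ℕ) (x : ℕ → ℝ) (J : ℕ) (hJ : 1 ≤ J) (M : ℝ) (hM0 : 0 ≤ M)
    (hM : ∀ j : ℕ, 1 ≤ j → j < J → ‖∑ q ∈ S, ee ((j : ℝ) * x q)‖ ≤ M) (B : Finset ℕ) (hB : B ⊆ S)
    (hx : ∀ q ∈ B, ∃ k : ℤ, |x q - k| ≤ 1 / (8 * J)) :
    (B.card : ℝ) ≤ 2 * S.card / J + 2 * M := by
  have hJ0 : (0 : ℝ) < J := by exact_mod_cast hJ
  have h1 := second_moment S x J M hM0 hM
  have h2 : (B.card : ℝ) * ((J : ℝ) ^ 2 / 2) ≤
      ∑ q ∈ S, ‖∑ j ∈ range J, ee ((j : ℝ) * x q)‖ ^ 2 := by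
    calc (B.card : ℝ) * ((J : ℝ) ^ 2 / 2) = ∑ _q ∈ B, (J : ℝ) ^ 2 / 2 := by
          rw [sum_const, nsmul_eq_mul]
      _ ≤ ∑ q ∈ B, ‖∑ j ∈ range J, ee ((j : ℝ) * x q)‖ ^ 2 := sum_le_sum fun q hq => by
          obtain ⟨k, hk⟩ := hx q hq
          exact near_int J (x q) k hJ hk
      _ ≤ _ := sum_le_sum_of_subset_of_nonneg hB fun q _ _ => by positivity
  have h3 : (B.card : ℝ) * ((J : ℝ) ^ 2 / 2) ≤ (2 * S.card / J + 2 * M) * ((J : ℝ) ^ 2 / 2) := by
    refine (h2.trans h1).trans (le_of_eq ?_)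
    field_simp
  exact le_of_mul_le_mul_right h3 (by positivity)

/-- for every `H` in `[R², R^kap]` few `q ∈ (R, 2R]` are such that `H/q` is close to an integer -/
theorem bad_exp (kap : ℝ) (hkap : 0 ≤ kap) : ∃ c0 : ℝ, 0 < c0 ∧ ∀ c : ℝ, 0 < c → c ≤ c0 → ∃ R0 : ℕ, ∀ (R : ℕ) (H : ℝ),
    R0 ≤ R → (R : ℝ) ^ 2 ≤ H → H ≤ (R : ℝ) ^ kap → ∀ B : Finset ℕ, B ⊆ Ioc R (2 * R) →
      (∀ q ∈ B, ∃ k : ℤ, |H / q - k| ≤ (R : ℝ) ^ (-(3 * c))) → (B.card : ℝ) ≤ (R : ℝ) ^ (1 - c) := by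
  obtain ⟨c1, K, hc1, hK, hex⟩ := Pool.Agent.H49.VK.expsumK
  have hk1 : 0 < kap + 1 := by linarith
  refine ⟨min (c1 / (8 * (kap + 1) ^ 2)) (1 / 4 : ℝ), by positivity, fun c hc0 hc => ?_⟩
  have hc4 : c ≤ 1 / 4 := hc.trans (min_le_right _ _)
  have hc8 : 8 * c ≤ c1 / (kap + 1) ^ 2 := by
    have h : c ≤ c1 / (8 * (kap + 1) ^ 2) := hc.trans (min_le_left _ _)
    calc 8 * c ≤ 8 * (c1 / (8 * (kap + 1) ^ 2)) := by linarith
      _ = c1 / (kap + 1) ^ 2 := by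
          field_simp
  obtain ⟨A, hA⟩ : ∃ A, A = max (16 : ℝ) (2 * K * (1 + 1 / c)) := ⟨_, rfl⟩
  have hA16 : 16 ≤ A := by
    rw [hA]
    exact le_max_left _ _
  have hAK : 2 * K * (1 + 1 / c) ≤ A := by
    rw [hA]
    exact le_max_right _ _
  refine ⟨max 4 ⌈A ^ (1 / c)⌉₊, ?_⟩
  intro R H hR hH1 hH2 B hB hBx
  have hR4 : 4 ≤ R := (le_max_left _ _).trans hR
  have hRr : (4 : ℝ) ≤ R := by exact_mod_cast hR4
  have hR0 : (0 : ℝ) < R := by linarith
  have hR1 : (1 : ℝ) ≤ R := by linarith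
  have hRA : A ≤ (R : ℝ) ^ c := by
    have h1 : A ^ (1 / c) ≤ R := (Nat.le_ceil _).trans (by exact_mod_cast (le_max_right _ _).trans hR)
    have h2 := Real.rpow_le_rpow (by positivity) h1 hc0.le
    rw [← Real.rpow_mul (by linarith), one_div, inv_mul_cancel₀ hc0.ne', Real.rpow_one] at h2
    exact h2
  obtain ⟨t, ht⟩ : ∃ t, t = (R : ℝ) ^ c := ⟨_, rfl⟩
  rw [← ht] at hRA
  have ht16 : 16 ≤ t := hA16.trans hRA
  have ht0 : 0 < t := by linarith
  have ht2 : (R : ℝ) ^ (2 * c) = t ^ 2 := by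
    rw [ht, ← Real.rpow_natCast, ← Real.rpow_mul hR0.le]
    congr 1
    push_cast
    ring
  have ht3 : (R : ℝ) ^ (-(3 * c)) = 1 / t ^ 3 := by
    rw [Real.rpow_neg hR0.le, one_div, ht, ← Real.rpow_natCast, ← Real.rpow_mul hR0.le]
    congr 2
    push_cast
    ring
  have ht1 : (R : ℝ) ^ (1 - c) = R / t := by
    rw [Real.rpow_sub hR0, Real.rpow_one, ht]
  have ht8 : (R : ℝ) ^ (1 - c1 / (kap + 1) ^ 2) ≤ R / t ^ 8 := by
    calc (R : ℝ) ^ (1 - c1 / (kap + 1) ^ 2) ≤ (R : ℝ) ^ (1 - 8 * c) :=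
          Real.rpow_le_rpow_of_exponent_le hR1 (by linarith)
      _ = R / t ^ 8 := by
          rw [Real.rpow_sub hR0, Real.rpow_one, ht, ← Real.rpow_natCast, ← Real.rpow_mul hR0.le]
          congr 2
          push_cast
          ring
  have htR : t ^ 2 ≤ √R := by
    rw [← ht2, Real.sqrt_eq_rpow]
    exact Real.rpow_le_rpow_of_exponent_le hR1 (by linarith)
  obtain ⟨J, hJ⟩ : ∃ J, J = ⌈t ^ 2⌉₊ := ⟨_, rfl⟩
  have hJ1 : t ^ 2 ≤ J := by
    rw [hJ]
    exact Nat.le_ceil _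
  have hJ2 : (J : ℝ) ≤ 2 * t ^ 2 := by
    have h := Nat.ceil_lt_add_one (show (0 : ℝ) ≤ t ^ 2 by positivity)
    rw [← hJ] at h
    nlinarith
  have hJ0 : (0 : ℝ) < J := by
    have : 0 < t ^ 2 := by positivity
    linarith
  have hJpos : 1 ≤ J := by exact_mod_cast hJ0
  have hJR : (J : ℝ) ≤ R := by
    have h1 : 2 * √R ≤ R := by
      have h2 : (2 : ℝ) ≤ √R := by
        rw [show (2 : ℝ) = √4 by rw [show (4 : ℝ) = 2 ^ 2 by norm_num, Real.sqrt_sq (by norm_num)]]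
        exact Real.sqrt_le_sqrt hRr
      have h3 := Real.mul_self_sqrt hR0.le
      nlinarith
    linarith
  have hM0 : 0 ≤ K * (1 + Real.log R) * (R : ℝ) ^ (1 - c1 / (kap + 1) ^ 2) := by
    have := Real.log_nonneg hR1
    positivity
  have hmain := count_near (Ioc R (2 * R)) (fun q => H / q) J hJpos
    (K * (1 + Real.log R) * (R : ℝ) ^ (1 - c1 / (kap + 1) ^ 2)) hM0 (by
      intro j hj1 hj2
      have hj1' : (1 : ℝ) ≤ j := by exact_mod_cast hj1
      have hj2' : (j : ℝ) ≤ R := (by exact_mod_cast hj2.le : (j : ℝ) ≤ J).trans hJR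
      have hH0 : 0 ≤ H := (by positivity : (0 : ℝ) ≤ (R : ℝ) ^ 2).trans hH1
      have h := hex R (2 * R) (j * H) (kap + 1) (by omega) le_rfl hk1.le
        (by nlinarith) (by
          rw [Real.rpow_add hR0, Real.rpow_one, mul_comm]
          exact mul_le_mul hH2 hj2' (by linarith) (by positivity))
      simp only [mul_div_assoc] at h ⊢
      exact h) B hB (by
      intro q hq
      obtain ⟨k, hk⟩ := hBx q hq
      refine ⟨k, hk.trans ?_⟩
      rw [ht3]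
      apply one_div_le_one_div_of_le (by positivity)
      have h1 : 8 * (J : ℝ) ≤ 16 * t ^ 2 := by linarith
      have h2 : 16 * t ^ 2 ≤ t * t ^ 2 := by
        have : 0 ≤ t ^ 2 := by positivity
        nlinarith
      calc 8 * (J : ℝ) ≤ t * t ^ 2 := h1.trans h2
        _ = t ^ 3 := by ring)
  have hcard : ((Ioc R (2 * R)).card : ℝ) = R := by
    rw [Nat.card_Ioc]
    congr 1
    omega
  rw [hcard] at hmain
  refine hmain.trans ?_
  rw [ht1]
  have hlog : 1 + Real.log R ≤ (1 + 1 / c) * t := by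
    have h1 := Real.log_le_rpow_div hR0.le hc0
    rw [← ht] at h1
    have h2 : (1 + 1 / c) * t = t + t / c := by ring
    rw [h2]
    linarith
  have hA1 : 2 * (R : ℝ) / J ≤ 2 * R / t ^ 2 := by
    apply div_le_div_of_nonneg_left (by positivity) (by positivity) hJ1
  have hA2 : 2 * (K * (1 + Real.log R) * (R : ℝ) ^ (1 - c1 / (kap + 1) ^ 2)) ≤ R / t ^ 2 := by
    calc 2 * (K * (1 + Real.log R) * (R : ℝ) ^ (1 - c1 / (kap + 1) ^ 2))
        ≤ 2 * (K * ((1 + 1 / c) * t) * (R / t ^ 8)) := by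
          have := Real.log_nonneg hR1
          gcongr
      _ = (2 * K * (1 + 1 / c)) * t * (R / t ^ 8) := by ring
      _ ≤ t * t * (R / t ^ 8) := by
          have := hAK.trans hRA
          gcongr
      _ = R / t ^ 2 * (1 / t ^ 4) := by
          field_simp
      _ ≤ R / t ^ 2 * 1 := by
          gcongr
          rw [div_le_one (by positivity)]
          exact one_le_pow₀ (by linarith)
      _ = R / t ^ 2 := mul_one _
  calc 2 * (R : ℝ) / J + 2 * (K * (1 + Real.log R) * (R : ℝ) ^ (1 - c1 / (kap + 1) ^ 2))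
      ≤ 2 * R / t ^ 2 + R / t ^ 2 := add_le_add hA1 hA2
    _ = R / t * (3 / t) := by
        field_simp
        ring
    _ ≤ R / t * 1 := by
        gcongr
        rw [div_le_one ht0]
        linarith
    _ = R / t := mul_one _

end Pool.Agent.H49.HV
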